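import Mathlib

/-!
Spaces with a countable `k`-network: closure under the operations and under `C_k(X, Y)`
(Michael).
-/

namespace Pool.Agent.X212.Ck

open Set Topology TopologicalSpace Filter Cardinal

universe u v

/-- A countable `k`-network. -/
def HasKN (X : Type u) [TopologicalSpace X] : Prop :=
  ∃ 𝓐 : Set (Set X), 𝓐.Countable ∧
    ∀ K U : Set X, IsCompact K → IsOpen U → K ⊆ U → ∃ P ∈ 𝓐, K ⊆ P ∧ P ⊆ U

/-- The local form. -/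
def HasLKN (X : Type u) [TopologicalSpace X] : Prop :=
  ∃ 𝓐 : Set (Set X), 𝓐.Countable ∧
    ∀ K U : Set X, IsCompact K → IsOpen U → ∀ z ∈ K, z ∈ U →
      ∃ P ∈ 𝓐, ∃ N ∈ 𝓝 z, K ∩ N ⊆ P ∧ P ⊆ U

lemma HasLKN.hasKN {X : Type u} [TopologicalSpace X] (h : HasLKN X) : HasKN X := by
  obtain ⟨𝓐, hc, hA⟩ := h
  refine ⟨(fun T => ⋃₀ T) '' {T | T.Finite ∧ T ⊆ 𝓐}, (countable_ofPred_finite_subset hc).image _, ?_⟩
  intro K U hK hU hKU
  have h1 : ∀ z : X, ∃ P : Set X, ∃ N : Set X, z ∈ K → P ∈ 𝓐 ∧ N ∈ 𝓝 z ∧ K ∩ N ⊆ P ∧ P ⊆ U := by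
    intro z
    by_cases hz : z ∈ K
    · obtain ⟨P, hP, N, hN, h2, h3⟩ := hA K U hK hU z hz (hKU hz)
      exact ⟨P, N, fun _ => ⟨hP, hN, h2, h3⟩⟩
    · exact ⟨∅, ∅, fun h => absurd h hz⟩
  choose P N hPN using h1
  obtain ⟨t, htK, htc⟩ := hK.elim_nhds_subcover N (fun z hz => (hPN z hz).2.1)
  refine ⟨⋃₀ (P '' t), ⟨P '' t, ⟨t.finite_toSet.image P, ?_⟩, rfl⟩, ?_, ?_⟩
  · rintro _ ⟨z, hz, rfl⟩
    exact (hPN z (htK z hz)).1
  · intro y hy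
    obtain ⟨z, hz, hyz⟩ := mem_iUnion₂.1 (htc hy)
    exact ⟨P z, ⟨z, hz, rfl⟩, (hPN z (htK z hz)).2.2.1 ⟨hy, hyz⟩⟩
  · rintro y ⟨_, ⟨z, hz, rfl⟩, hy⟩
    exact (hPN z (htK z hz)).2.2.2 hy

lemma HasKN.hasLKN {X : Type u} [TopologicalSpace X] [RegularSpace X] (h : HasKN X) :
    HasLKN X := by
  obtain ⟨𝓐, hc, hA⟩ := h
  refine ⟨𝓐, hc, fun K U hK hU z _ hzU => ?_⟩
  obtain ⟨C, hC, hCc, hCU⟩ := exists_mem_nhds_isClosed_subset (hU.mem_nhds hzU)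
  obtain ⟨P, hP, h1, h2⟩ := hA (K ∩ C) U (hK.inter_right hCc) hU (inter_subset_right.trans hCU)
  exact ⟨P, hP, C, hC, h1, h2⟩

lemma HasKN.of_isEmbedding {X : Type u} {Z : Type v} [TopologicalSpace X] [TopologicalSpace Z]
    {f : Z → X} (hf : IsEmbedding f) (h : HasKN X) : HasKN Z := by
  obtain ⟨𝓐, hc, hA⟩ := h
  refine ⟨(fun P => f ⁻¹' P) '' 𝓐, hc.image _, fun K U hK hU hKU => ?_⟩
  obtain ⟨V, hV, rfl⟩ := hf.isOpen_iff.1 hU
  obtain ⟨P, hP, h1, h2⟩ := hA (f '' K) V (hK.image hf.continuous) hV (image_subset_iff.2 hKU)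
  exact ⟨f ⁻¹' P, ⟨P, hP, rfl⟩, image_subset_iff.1 h1, preimage_mono h2⟩

lemma hasKN_of_secondCountable (X : Type u) [TopologicalSpace X] [SecondCountableTopology X] :
    HasKN X := by
  refine HasLKN.hasKN ⟨countableBasis X, countable_countableBasis X, ?_⟩
  intro K U _ hU z _ hzU
  obtain ⟨B, hB, hzB, hBU⟩ := (isBasis_countableBasis X).exists_subset_of_mem_open hzU hU
  exact ⟨B, hB, B, (isOpen_of_mem_countableBasis hB).mem_nhds hzB, inter_subset_right, hBU⟩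

lemma HasKN.pi {ι : Type v} [Countable ι] {X : ι → Type u} [∀ i, TopologicalSpace (X i)]
    [∀ i, RegularSpace (X i)] (h : ∀ i, HasKN (X i)) : HasKN (∀ i, X i) := by
  classical
  choose 𝓐 hc hA using h
  refine HasLKN.hasKN ⟨(fun T : Set (Σ i, Set (X i)) => {y | ∀ p ∈ T, y p.1 ∈ p.2}) ''
    {T | T.Finite ∧ T ⊆ {p | p.2 ∈ 𝓐 p.1}}, (countable_ofPred_finite_subset ?_).image _, ?_⟩
  · have : {p : Σ i, Set (X i) | p.2 ∈ 𝓐 p.1} = ⋃ i, Sigma.mk i '' 𝓐 i := by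
      ext ⟨i, P⟩
      simp only [mem_ofPred_eq, mem_iUnion, mem_image]
      constructor
      · intro h; exact ⟨i, P, h, rfl⟩
      · rintro ⟨j, Q, hQ, h⟩
        cases h
        exact hQ
    rw [this]
    exact countable_iUnion fun i => (hc i).image _
  · intro K U hK hU z _ hzU
    obtain ⟨I, V, hV, hVU⟩ := isOpen_pi_iff.1 hU z hzU
    have hbox : (I : Set ι).pi V ∈ 𝓝 z := (isOpen_set_pi I.finite_toSet fun i hi => (hV i hi).1).mem_nhds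
      fun i hi => (hV i hi).2
    obtain ⟨C, hC, hCc, hCU⟩ := exists_mem_nhds_isClosed_subset hbox
    have h1 : ∀ i : ι, ∃ P : Set (X i), i ∈ I → P ∈ 𝓐 i ∧ (fun y : ∀ i, X i => y i) '' (K ∩ C) ⊆ P ∧ P ⊆ V i := by
      intro i
      by_cases hi : i ∈ I
      · obtain ⟨P, hP, h2, h3⟩ := hA i ((fun y : ∀ i, X i => y i) '' (K ∩ C)) (V i)
          ((hK.inter_right hCc).image (continuous_apply i)) (hV i hi).1 (by
            rintro _ ⟨y, hy, rfl⟩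
            exact hCU hy.2 i hi)
        exact ⟨P, fun _ => ⟨hP, h2, h3⟩⟩
      · exact ⟨∅, fun h => absurd h hi⟩
    choose P hP using h1
    refine ⟨{y | ∀ p ∈ (fun i => (⟨i, P i⟩ : Σ i, Set (X i))) '' I, y p.1 ∈ p.2},
      ⟨_, ⟨I.finite_toSet.image _, ?_⟩, rfl⟩, C, hC, ?_, ?_⟩
    · rintro _ ⟨i, hi, rfl⟩
      exact (hP i hi).1
    · rintro y hy _ ⟨i, hi, rfl⟩
      exact (hP i hi).2.1 ⟨y, hy, rfl⟩
    · intro y hy
      apply hVU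
      intro i hi
      exact (hP i hi).2.2 (hy ⟨i, P i⟩ ⟨i, hi, rfl⟩)

lemma HasKN.sigma {ι : Type v} [Countable ι] {X : ι → Type u} [∀ i, TopologicalSpace (X i)]
    [∀ i, RegularSpace (X i)] (h : ∀ i, HasKN (X i)) : HasKN (Σ i, X i) := by
  have h' := fun i => (h i).hasLKN
  choose 𝓐 hc hA using h'
  refine HasLKN.hasKN ⟨⋃ i, (fun P => Sigma.mk i '' P) '' 𝓐 i,
    countable_iUnion fun i => (hc i).image _, ?_⟩
  rintro K U hK hU ⟨i, x⟩ hzK hzU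
  have hKi : IsCompact (Sigma.mk i ⁻¹' K) := IsClosedEmbedding.sigmaMk.isCompact_preimage hK
  obtain ⟨P, hP, N, hN, h1, h2⟩ := hA i (Sigma.mk i ⁻¹' K) (Sigma.mk i ⁻¹' U) hKi
    (hU.preimage continuous_sigmaMk) x hzK hzU
  refine ⟨Sigma.mk i '' P, mem_iUnion.2 ⟨i, P, hP, rfl⟩, Sigma.mk i '' N,
    (isOpenMap_sigmaMk.image_mem_nhds hN), ?_, image_subset_iff.2 h2⟩
  rintro _ ⟨hy, y, hyN, rfl⟩
  exact ⟨y, h1 ⟨hy, hyN⟩, rfl⟩

/-- A sequence converging to a compact set together with the compact set is compact. -/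
lemma isCompact_union_tail {X : Type u} [TopologicalSpace X] {K : Set X} (hK : IsCompact K)
    (x : ℕ → X) (hx : ∀ V, IsOpen V → K ⊆ V → ∀ᶠ n in atTop, x n ∈ V) (m : ℕ) :
    IsCompact (K ∪ x '' Ici m) := by
  refine isCompact_of_finite_subcover ?_
  intro ι U hU hcov
  obtain ⟨t, ht⟩ := hK.elim_finite_subcover U hU (subset_union_left.trans hcov)
  obtain ⟨N, hN⟩ := eventually_atTop.1 (hx (⋃ i ∈ t, U i) (isOpen_biUnion fun i _ => hU i) ht)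
  have hfin : IsCompact (x '' (Ici m ∩ Iio N)) :=
    ((finite_Iio N).subset inter_subset_right).image x |>.isCompact
  obtain ⟨t', ht'⟩ := hfin.elim_finite_subcover U hU
    ((image_mono inter_subset_left).trans (subset_union_right.trans hcov))
  classical
  refine ⟨t ∪ t', ?_⟩
  rintro y (hy | ⟨n, hn, rfl⟩)
  · obtain ⟨i, hi, hyi⟩ := mem_iUnion₂.1 (ht hy)
    exact mem_iUnion₂.2 ⟨i, Finset.mem_union_left _ hi, hyi⟩
  · by_cases hnN : n < N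
    · obtain ⟨i, hi, hyi⟩ := mem_iUnion₂.1 (ht' ⟨n, ⟨hn, hnN⟩, rfl⟩)
      exact mem_iUnion₂.2 ⟨i, Finset.mem_union_right _ hi, hyi⟩
    · obtain ⟨i, hi, hyi⟩ := mem_iUnion₂.1 (hN n (not_lt.1 hnN))
      exact mem_iUnion₂.2 ⟨i, Finset.mem_union_left _ hi, hyi⟩

/-- Evaluation is continuous on a compact set of points. -/
lemma continuous_eval_restrict {X : Type u} {Y : Type v} [TopologicalSpace X] [T2Space X]
    [TopologicalSpace Y] {K : Set X} (hK : IsCompact K) :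
    Continuous (fun p : C(X, Y) × K => p.1 p.2.1) := by
  have : CompactSpace K := isCompact_iff_compactSpace.1 hK
  have h1 : Continuous (fun p : C(X, Y) × K => (p.1.restrict K) p.2) :=
    ((ContinuousMap.continuous_restrict K).comp continuous_fst).eval continuous_snd
  exact h1

/-- The main step: between a compact set of maps and a subbasic open set. -/
lemma exists_between {X : Type u} {Y : Type v} [TopologicalSpace X] [T2Space X]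
    [TopologicalSpace Y] {𝓐 : Set (Set X)} (hAc : 𝓐.Countable)
    (hA : ∀ K U : Set X, IsCompact K → IsOpen U → K ⊆ U → ∃ P ∈ 𝓐, K ⊆ P ∧ P ⊆ U)
    {𝓑 : Set (Set Y)} (hBc : 𝓑.Countable)
    (hB : ∀ K U : Set Y, IsCompact K → IsOpen U → K ⊆ U → ∃ P ∈ 𝓑, K ⊆ P ∧ P ⊆ U)
    {F : Set C(X, Y)} (hF : IsCompact F) {K : Set X} (hK : IsCompact K) {U : Set Y}
    (hU : IsOpen U) (hFK : ∀ f ∈ F, MapsTo f K U) :
    ∃ S : Set (Set X), ∃ T : Set (Set Y), S.Finite ∧ S ⊆ 𝓐 ∧ T.Finite ∧ T ⊆ 𝓑 ∧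
      K ⊆ ⋂₀ S ∧ ⋃₀ T ⊆ U ∧ ∀ f ∈ F, MapsTo f (⋂₀ S) (⋃₀ T) := by
  -- enumerate
  have hA1 : {P ∈ 𝓐 | K ⊆ P}.Nonempty := by
    obtain ⟨P, hP, h1, -⟩ := hA K univ hK isOpen_univ (subset_univ _)
    exact ⟨P, hP, h1⟩
  have hB1 : {Q ∈ 𝓑 | Q ⊆ U}.Nonempty := by
    obtain ⟨P, hP, -, h1⟩ := hB ∅ U isCompact_empty hU (empty_subset _)
    exact ⟨P, hP, h1⟩
  obtain ⟨p, hp⟩ := (hAc.mono (sep_subset _ _)).exists_eq_range hA1
  obtain ⟨q, hq⟩ := (hBc.mono (sep_subset _ _)).exists_eq_range hB1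
  have hp' : ∀ i, p i ∈ 𝓐 ∧ K ⊆ p i := fun i => by
    have : p i ∈ {P ∈ 𝓐 | K ⊆ P} := by rw [hp]; exact ⟨i, rfl⟩
    exact this
  have hq' : ∀ i, q i ∈ 𝓑 ∧ q i ⊆ U := fun i => by
    have : q i ∈ {P ∈ 𝓑 | P ⊆ U} := by rw [hq]; exact ⟨i, rfl⟩
    exact this
  by_contra hcon
  have h1 : ∀ n : ℕ, ∃ f ∈ F, ∃ x : X, (∀ i ≤ n, x ∈ p i) ∧ ∀ i ≤ n, f x ∉ q i := by
    intro n
    by_contra hn
    push Not at hn
    apply hcon
    refine ⟨p '' Iic n, q '' Iic n, (finite_Iic n).image p, ?_, (finite_Iic n).image q, ?_, ?_,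
      ?_, ?_⟩
    · rintro _ ⟨i, -, rfl⟩; exact (hp' i).1
    · rintro _ ⟨i, -, rfl⟩; exact (hq' i).1
    · rintro x hx _ ⟨i, -, rfl⟩; exact (hp' i).2 hx
    · rintro y ⟨_, ⟨i, -, rfl⟩, hy⟩; exact (hq' i).2 hy
    · intro f hf x hx
      obtain ⟨i, hi, hfi⟩ := hn f hf x (fun i hi => hx _ ⟨i, hi, rfl⟩)
      exact ⟨q i, ⟨i, hi, rfl⟩, hfi⟩
  choose f hf x hxp hxq using h1
  have hconv : ∀ V, IsOpen V → K ⊆ V → ∀ᶠ n in atTop, x n ∈ V := by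
    intro V hV hKV
    obtain ⟨P, hP, h2, h3⟩ := hA K V hK hV hKV
    have : P ∈ range p := by rw [← hp]; exact ⟨hP, h2⟩
    obtain ⟨i, rfl⟩ := this
    filter_upwards [eventually_ge_atTop i] with n hn
    exact h3 (hxp n i hn)
  -- the tail stays in `U`
  have hK1 := isCompact_union_tail hK x hconv 0
  have hc1 := continuous_eval_restrict (Y := Y) hK1
  obtain ⟨V1, V2, hV1, hV2, hFV, hKV, hVV⟩ := generalized_tube_lemma hF
    (t := (Subtype.val ⁻¹' K : Set ↥(K ∪ x '' Ici 0)))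
    (Topology.IsClosedEmbedding.isCompact_preimage hK1.isClosed.isClosedEmbedding_subtypeVal hK)
    (hU.preimage hc1) (by
      rintro ⟨g, z⟩ ⟨hg, hz⟩
      exact hFK g hg hz)
  obtain ⟨V, hV, rfl⟩ := isOpen_induced_iff.1 hV2
  have hKV' : K ⊆ V := fun z hz => hKV (a := ⟨z, Or.inl hz⟩) hz
  obtain ⟨n₀, hn₀⟩ := eventually_atTop.1 (hconv V hV hKV')
  have hK2 := isCompact_union_tail hK x hconv n₀
  have hc2 := continuous_eval_restrict (Y := Y) hK2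
  have : CompactSpace ↥(K ∪ x '' Ici n₀) := isCompact_iff_compactSpace.1 hK2
  have hE : IsCompact ((fun p : C(X, Y) × ↥(K ∪ x '' Ici n₀) => p.1 p.2.1) '' (F ×ˢ Set.univ)) :=
    (hF.prod isCompact_univ).image hc2
  obtain ⟨Q, hQ, hEQ, hQU⟩ := hB _ U hE hU (by
    rintro _ ⟨⟨g, z⟩, ⟨hg, -⟩, rfl⟩
    have hzU : z.1 ∈ V := by
      rcases z.2 with hz | ⟨n, hn, hz⟩
      · exact hKV' hz
      · rw [← hz]; exact hn₀ n hn
    have hz' : z.1 ∈ K ∪ x '' Ici 0 := by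
      rcases z.2 with hz | ⟨n, hn, hz⟩
      · exact Or.inl hz
      · exact Or.inr ⟨n, Nat.zero_le n, hz⟩
    exact hVV (a := (g, ⟨z.1, hz'⟩)) ⟨hFV hg, hzU⟩)
  have : Q ∈ range q := by rw [← hq]; exact ⟨hQ, hQU⟩
  obtain ⟨m, rfl⟩ := this
  have hn : n₀ ≤ max n₀ m := le_max_left _ _
  exact hxq (max n₀ m) m (le_max_right _ _)
    (hEQ ⟨(f (max n₀ m), ⟨x (max n₀ m), Or.inr ⟨_, hn, rfl⟩⟩), ⟨hf _, mem_univ _⟩, rfl⟩)

/-- Michael: `C_k(X, Y)` has a countable `k`-network if `X` and `Y` have one. -/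
lemma HasKN.continuousMap {X : Type u} {Y : Type v} [TopologicalSpace X] [T2Space X]
    [TopologicalSpace Y] [RegularSpace Y] (hX : HasKN X) (hY : HasKN Y) : HasKN C(X, Y) := by
  obtain ⟨𝓐, hAc, hA⟩ := hX
  obtain ⟨𝓑, hBc, hB⟩ := hY
  have hc1 := (countable_ofPred_finite_subset hAc).prod (countable_ofPred_finite_subset hBc)
  refine HasLKN.hasKN ⟨(fun R : Set (Set (Set X) × Set (Set Y)) =>
    {g : C(X, Y) | ∀ r ∈ R, MapsTo g (⋂₀ r.1) (⋃₀ r.2)}) '' {R | R.Finite ∧ R ⊆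
      {S : Set (Set X) | S.Finite ∧ S ⊆ 𝓐} ×ˢ {T : Set (Set Y) | T.Finite ∧ T ⊆ 𝓑}},
      (countable_ofPred_finite_subset hc1).image _, ?_⟩
  intro F W hF hW f hfF hfW
  obtain ⟨R, hRf, hR, hRW⟩ := ContinuousMap.mem_nhds_iff.1 (hW.mem_nhds hfW)
  have hbox : {g : C(X, Y) | ∀ K U, (K, U) ∈ R → MapsTo g K U} ∈ 𝓝 f :=
    ContinuousMap.mem_nhds_iff.2 ⟨R, hRf, hR, subset_rfl⟩
  obtain ⟨C, hC, hCc, hCR⟩ := exists_mem_nhds_isClosed_subset hbox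
  have h1 : ∀ r : Set X × Set Y, ∃ s : Set (Set X) × Set (Set Y), r ∈ R →
      s.1.Finite ∧ s.1 ⊆ 𝓐 ∧ s.2.Finite ∧ s.2 ⊆ 𝓑 ∧
      r.1 ⊆ ⋂₀ s.1 ∧ ⋃₀ s.2 ⊆ r.2 ∧ ∀ g ∈ F ∩ C, MapsTo g (⋂₀ s.1) (⋃₀ s.2) := by
    rintro ⟨K, U⟩
    by_cases hr : (K, U) ∈ R
    · obtain ⟨S, T, h⟩ := exists_between hAc hA hBc hB (hF.inter_right hCc) (hR K U hr).1
        (hR K U hr).2.1 (fun g hg => hCR hg.2 K U hr)
      exact ⟨(S, T), fun _ => h⟩
    · exact ⟨(∅, ∅), fun h => absurd h hr⟩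
  choose s hs using h1
  refine ⟨_, ⟨s '' R, ⟨hRf.image s, ?_⟩, rfl⟩, C, hC, ?_, ?_⟩
  · rintro _ ⟨r, hr, rfl⟩
    exact ⟨⟨(hs r hr).1, (hs r hr).2.1⟩, ⟨(hs r hr).2.2.1, (hs r hr).2.2.2.1⟩⟩
  · rintro g hg _ ⟨r, hr, rfl⟩
    exact (hs r hr).2.2.2.2.2.2 g hg
  · intro g hg
    apply hRW
    intro K U hr x hx
    exact (hs _ hr).2.2.2.2.2.1 (hg _ ⟨_, hr, rfl⟩ ((hs _ hr).2.2.2.2.1 hx))

lemma HasKN.mk_le {X : Type u} [TopologicalSpace X] [T1Space X] (h : HasKN X) : #X ≤ 𝔠 := by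
  obtain ⟨𝓐, hc, hA⟩ := h
  have hinj : Function.Injective (fun (x : X) => {P : 𝓐 | x ∈ P.1}) := by
    intro x y hxy
    by_contra hne
    obtain ⟨P, hP, h1, h2⟩ := hA {x} {y}ᶜ isCompact_singleton isOpen_compl_singleton
      (by simpa [eq_comm] using hne)
    have hx : (⟨P, hP⟩ : 𝓐) ∈ {P : 𝓐 | x ∈ P.1} := h1 rfl
    have hxy' : {P : 𝓐 | x ∈ P.1} = {P : 𝓐 | y ∈ P.1} := hxy
    rw [hxy'] at hx
    exact h2 hx rfl
  refine (mk_le_of_injective hinj).trans ?_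
  rw [mk_set]
  have : Countable 𝓐 := hc.to_subtype
  rw [← two_power_aleph0]
  exact power_le_power_left two_ne_zero mk_le_aleph0

end Pool.Agent.X212.Ck
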