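import Mathlib

/-!
For a separable space `X` there is a set `M` of points of the Cantor space such that
`C_k(M, ℝ)` does not embed into `C_k(X, Y)` for a given metrizable `Y`.
-/

namespace Pool.Agent.X212.Ck

open Set Topology TopologicalSpace Filter Cardinal

universe u v

/-- The indicator of a clopen subset of the Cantor space on a subspace `M`. -/
noncomputable def ind (M : Set (ℕ → Bool)) (C : Clopens (ℕ → Bool)) : C(M, ℝ) where
  toFun x := LocallyConstant.charFn ℝ C.isClopen x.1
  continuous_toFun := (LocallyConstant.continuous _).comp continuous_subtype_val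

lemma ind_mem {M : Set (ℕ → Bool)} {C : Clopens (ℕ → Bool)} {x : M} (h : x.1 ∈ C) :
    ind M C x = 1 := by
  show LocallyConstant.charFn ℝ C.isClopen x.1 = 1
  exact (LocallyConstant.charFn_eq_one ℝ x.1 C.isClopen).2 h

lemma ind_notMem {M : Set (ℕ → Bool)} {C : Clopens (ℕ → Bool)} {x : M} (h : x.1 ∉ C) :
    ind M C x = 0 := by
  show LocallyConstant.charFn ℝ C.isClopen x.1 = 0
  exact (LocallyConstant.charFn_eq_zero ℝ x.1 C.isClopen).2 h

/-- The set `C(X, ℝ)` over a separable space has at most continuum many elements. -/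
lemma mk_le (X : Type u) [TopologicalSpace X] [SeparableSpace X] : #C(X, ℝ) ≤ 𝔠 := by
  obtain ⟨D, hD, hd⟩ := exists_countable_dense X
  have hinj : Function.Injective (fun (f : C(X, ℝ)) (x : D) => f x.1) := by
    intro f g h
    refine DFunLike.coe_injective (Continuous.ext_on hd f.continuous g.continuous ?_)
    intro x hx
    exact congrFun h ⟨x, hx⟩
  refine (mk_le_of_injective hinj).trans ?_
  have : Countable D := hD.to_subtype
  have h2 : #D ≤ ℵ₀ := mk_le_aleph0
  rw [mk_pi, Cardinal.prod_const]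
  calc lift.{u} #ℝ ^ lift.{0} #D ≤ 𝔠 ^ (ℵ₀ : Cardinal.{u}) := by
        rw [mk_real, lift_continuum, lift_uzero]
        exact power_le_power_left (by simpa using continuum_ne_zero) h2
    _ = 𝔠 := continuum_power_aleph0

/-- Over a separable `X` the topologies of `C_k(X, Y)`, `Y` metrizable, contain few
`C_k(M, ℝ)`. -/
theorem exists_not_inducing (X : Type u) [TopologicalSpace X] [SeparableSpace X] :
    ∃ M : Set (ℕ → Bool), ∀ (Y : Type v) [TopologicalSpace Y] [MetrizableSpace Y]
      (f : C(M, ℝ) → C(X, Y)), ¬ IsInducing f := by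
  by_contra hcon
  push Not at hcon
  choose Y tY mY f hf using hcon
  let _ : ∀ M, MetricSpace (Y M) := fun M => metrizableSpaceMetric (Y M)
  let δ : Set (ℕ → Bool) → Clopens (ℕ → Bool) → C(X, ℝ) := fun M C =>
    ⟨fun x => dist (f M (ind M C) x) (f M 0 x), by fun_prop⟩
  have key : ∀ M M' : Set (ℕ → Bool), δ M = δ M' → M' ⊆ M := by
    intro M M' hMM x hx'
    by_contra hx
    -- the neighbourhood of zero over `M'`
    have hW : {g : C(M', ℝ) | g ⟨x, hx'⟩ < 1} ∈ 𝓝 (0 : C(M', ℝ)) := by
      refine (isOpen_lt (continuous_eval_const _) continuous_const).mem_nhds ?_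
      simp
    rw [(hf M').nhds_eq_comap] at hW
    obtain ⟨V, hV, hVW⟩ := hW
    have hb := (nhds_basis_uniformity' (Metric.uniformity_basis_dist
      (α := Y M')).compactConvergenceUniformity (x := f M' 0)).mem_iff.1 hV
    obtain ⟨⟨K, ε⟩, ⟨hK, hε⟩, hKV⟩ := hb
    -- the corresponding neighbourhood over `M`
    have hV2 : {h : C(X, Y M) | ∀ y ∈ K, dist (f M 0 y) (h y) < ε} ∈ 𝓝 (f M 0) :=
      (nhds_basis_uniformity' (Metric.uniformity_basis_dist
        (α := Y M)).compactConvergenceUniformity (x := f M 0)).mem_iff.2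
        ⟨(K, ε), ⟨hK, hε⟩, fun h hh => hh⟩
    have hV3 := (hf M).continuous.continuousAt.preimage_mem_nhds hV2
    obtain ⟨⟨L, η⟩, ⟨hL, hη⟩, hLV⟩ := (nhds_basis_uniformity' (Metric.uniformity_basis_dist
        (α := ℝ)).compactConvergenceUniformity (x := (0 : C(M, ℝ)))).mem_iff.1 hV3
    -- a clopen set containing `x` and missing the compact set
    have hLc : IsClosed ((fun z : M => z.1) '' L) := (hL.image continuous_subtype_val).isClosed
    have hxL : x ∈ ((fun z : M => z.1) '' L)ᶜ := by
      rintro ⟨z, -, hz⟩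
      exact hx (hz ▸ z.2)
    obtain ⟨C, hC, hxC, hCL⟩ := compact_exists_isClopen_in_isOpen hLc.isOpen_compl hxL
    let C' : Clopens (ℕ → Bool) := ⟨C, hC⟩
    have h1 : ind M C' ∈ f M ⁻¹' {h : C(X, Y M) | ∀ y ∈ K, dist (f M 0 y) (h y) < ε} := by
      apply hLV
      intro z hz
      have h0 : ind M C' z = 0 := by
        apply ind_notMem
        intro hzC
        exact hCL hzC ⟨z, hz, rfl⟩
      simpa [h0] using hη
    have h2 : f M' (ind M' C') ∈ V := by
      apply hKV
      intro y hy
      have h3 : dist (f M 0 y) (f M (ind M C') y) < ε := h1 y hy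
      have h4 : dist (f M (ind M C') y) (f M 0 y) = dist (f M' (ind M' C') y) (f M' 0 y) :=
        DFunLike.congr_fun (congrFun hMM C') y
      show dist (f M' 0 y) (f M' (ind M' C') y) < ε
      rw [dist_comm, ← h4, dist_comm]
      exact h3
    have h3 : ind M' C' ⟨x, hx'⟩ < 1 := hVW h2
    rw [ind_mem (show (⟨x, hx'⟩ : M').1 ∈ C' from hxC)] at h3
    exact lt_irrefl _ h3
  have hinj : Function.Injective δ := fun M M' h =>
    Subset.antisymm (key M' M h.symm) (key M M' h)
  have hcl : Countable (Clopens (ℕ → Bool)) := Clopens.countable_iff_secondCountable.2 inferInstance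
  have h1 : lift.{u} #(Set (ℕ → Bool)) ≤ lift.{0} #(Clopens (ℕ → Bool) → C(X, ℝ)) :=
    lift_mk_le_lift_mk_of_injective hinj
  have h2 : #(Clopens (ℕ → Bool) → C(X, ℝ)) ≤ 𝔠 := by
    rw [mk_pi, Cardinal.prod_const]
    calc lift.{0} #C(X, ℝ) ^ lift.{u} #(Clopens (ℕ → Bool)) ≤ 𝔠 ^ (ℵ₀ : Cardinal.{u}) := by
          refine (power_le_power_right ?_).trans (power_le_power_left ?_ ?_)
          · rw [lift_uzero]; exact mk_le X
          · exact continuum_ne_zero
          · rw [lift_le_aleph0]; exact mk_le_aleph0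
      _ = 𝔠 := continuum_power_aleph0
  rw [lift_uzero, mk_set, lift_power] at h1
  have h3 : #(ℕ → Bool) = 𝔠 := by simp
  rw [h3, lift_continuum] at h1
  simp only [lift_ofNat] at h1
  exact absurd (h1.trans h2) (not_le.2 (cantor 𝔠))

/-- A space with at most continuum many points does not contain all the spaces
`C_k(M, ℝ)`. -/
theorem exists_not_inducing_of_mk_le (U : Type u) [TopologicalSpace U] (hU : #U ≤ 𝔠) :
    ∃ M : Set (ℕ → Bool), ∀ f : C(M, ℝ) → U, ¬ IsInducing f := by
  by_contra hcon
  push Not at hcon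
  choose f hf using hcon
  let δ : Set (ℕ → Bool) → Option (Clopens (ℕ → Bool)) → U := fun M C =>
    match C with
    | none => f M 0
    | some C => f M (ind M C)
  have key : ∀ M M' : Set (ℕ → Bool), δ M = δ M' → M' ⊆ M := by
    intro M M' hMM x hx'
    by_contra hx
    have hW : {g : C(M', ℝ) | g ⟨x, hx'⟩ < 1} ∈ 𝓝 (0 : C(M', ℝ)) := by
      refine (isOpen_lt (continuous_eval_const _) continuous_const).mem_nhds ?_
      simp
    rw [(hf M').nhds_eq_comap] at hW
    obtain ⟨V, hV, hVW⟩ := hW
    have h0 : f M 0 = f M' 0 := congrFun hMM none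
    rw [← h0] at hV
    have hV3 := (hf M).continuous.continuousAt.preimage_mem_nhds hV
    obtain ⟨⟨L, η⟩, ⟨hL, hη⟩, hLV⟩ := (nhds_basis_uniformity' (Metric.uniformity_basis_dist
        (α := ℝ)).compactConvergenceUniformity (x := (0 : C(M, ℝ)))).mem_iff.1 hV3
    have hLc : IsClosed ((fun z : M => z.1) '' L) := (hL.image continuous_subtype_val).isClosed
    have hxL : x ∈ ((fun z : M => z.1) '' L)ᶜ := by
      rintro ⟨z, -, hz⟩
      exact hx (hz ▸ z.2)
    obtain ⟨C, hC, hxC, hCL⟩ := compact_exists_isClopen_in_isOpen hLc.isOpen_compl hxL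
    let C' : Clopens (ℕ → Bool) := ⟨C, hC⟩
    have h1 : ind M C' ∈ f M ⁻¹' V := by
      apply hLV
      intro z hz
      have h0 : ind M C' z = 0 := by
        apply ind_notMem
        intro hzC
        exact hCL hzC ⟨z, hz, rfl⟩
      simpa [h0] using hη
    have h2 : f M' (ind M' C') ∈ V := by
      have h4 : f M (ind M C') = f M' (ind M' C') := congrFun hMM (some C')
      rw [← h4]
      exact h1
    have h3 : ind M' C' ⟨x, hx'⟩ < 1 := hVW h2
    rw [ind_mem (show (⟨x, hx'⟩ : M').1 ∈ C' from hxC)] at h3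
    exact lt_irrefl _ h3
  have hinj : Function.Injective δ := fun M M' h =>
    Subset.antisymm (key M' M h.symm) (key M M' h)
  have hcl : Countable (Clopens (ℕ → Bool)) := Clopens.countable_iff_secondCountable.2 inferInstance
  have h1 : lift.{u} #(Set (ℕ → Bool)) ≤ lift.{0} #(Option (Clopens (ℕ → Bool)) → U) :=
    lift_mk_le_lift_mk_of_injective hinj
  have h2 : #(Option (Clopens (ℕ → Bool)) → U) ≤ 𝔠 := by
    rw [mk_pi, Cardinal.prod_const]
    calc lift.{0} #U ^ lift.{u} #(Option (Clopens (ℕ → Bool))) ≤ 𝔠 ^ (ℵ₀ : Cardinal.{u}) := by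
          refine (power_le_power_right ?_).trans (power_le_power_left ?_ ?_)
          · rw [lift_uzero]; exact hU
          · exact continuum_ne_zero
          · rw [lift_le_aleph0]; exact mk_le_aleph0
      _ = 𝔠 := continuum_power_aleph0
  rw [lift_uzero, mk_set, lift_power] at h1
  have h3 : #(ℕ → Bool) = 𝔠 := by simp
  rw [h3, lift_continuum] at h1
  simp only [lift_ofNat] at h1
  exact absurd (h1.trans h2) (not_le.2 (cantor 𝔠))

end Pool.Agent.X212.Ck
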